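import Mathlib
import Pool.Agent.Work.MP_db9399_lin.Interface

/-! Block FIN: from CORE to the theorem on graphs. -/

set_option autoImplicit false

namespace MP_db9399_co.Lin

open Finset

universe u

namespace FIN

section aux

variable {V : Type u} [DecidableEq V]

/-- a degeneracy order -/
theorem exists_rank (Hv : V → V → Prop) [DecidableRel Hv] (s : ℕ)
    (h : ∀ S : Finset V, S.Nonempty → ∃ v ∈ S, (S.filter (fun w => Hv v w)).card ≤ s) :
    ∀ (n : ℕ) (S : Finset V), S.card = n → ∃ r : V → ℕ, (∀ x ∈ S, r x < n) ∧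
      (∀ x ∈ S, ∀ y ∈ S, r x = r y → x = y) ∧
      ∀ x ∈ S, (S.filter (fun w => Hv x w ∧ r w < r x)).card ≤ s := by
  intro n
  induction n with
  | zero =>
    intro S hS
    rw [card_eq_zero] at hS
    subst hS
    exact ⟨fun _ => 0, by simp, by simp, by simp⟩
  | succ n ih =>
    intro S hS
    have hne : S.Nonempty := by rw [← card_pos]; omega
    obtain ⟨v, hv, hvs⟩ := h S hne
    obtain ⟨r', h1, h2, h3⟩ := ih (S.erase v) (by rw [card_erase_of_mem hv]; omega)
    refine ⟨fun x => if x = v then n else r' x, ?_, ?_, ?_⟩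
    · intro x hx
      beta_reduce
      by_cases hxv : x = v
      · rw [if_pos hxv]; omega
      · rw [if_neg hxv]
        have := h1 x (mem_erase.2 ⟨hxv, hx⟩)
        omega
    · intro x hx y hy hxy
      by_cases hxv : x = v
      · by_cases hyv : y = v
        · rw [hxv, hyv]
        · exfalso
          simp only [if_pos hxv, if_neg hyv] at hxy
          have := h1 y (mem_erase.2 ⟨hyv, hy⟩)
          omega
      · by_cases hyv : y = v
        · exfalso
          simp only [if_neg hxv, if_pos hyv] at hxy
          have := h1 x (mem_erase.2 ⟨hxv, hx⟩)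
          omega
        · simp only [if_neg hxv, if_neg hyv] at hxy
          exact h2 x (mem_erase.2 ⟨hxv, hx⟩) y (mem_erase.2 ⟨hyv, hy⟩) hxy
    · intro x hx
      by_cases hxv : x = v
      · subst hxv
        refine (card_le_card ?_).trans hvs
        intro w hw
        rw [mem_filter] at hw ⊢
        exact ⟨hw.1, hw.2.1⟩
      · refine (card_le_card ?_).trans (h3 x (mem_erase.2 ⟨hxv, hx⟩))
        intro w hw
        rw [mem_filter] at hw ⊢
        obtain ⟨hwS, hw1, hw2⟩ := hw
        have hxlt := h1 x (mem_erase.2 ⟨hxv, hx⟩)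
        by_cases hwv : w = v
        · exfalso
          simp only [if_pos hwv, if_neg hxv] at hw2
          omega
        · simp only [if_neg hwv, if_neg hxv] at hw2
          exact ⟨mem_erase.2 ⟨hwv, hwS⟩, hw1, hw2⟩

theorem inc_mono {S T : Finset (V × V)} (h : S ⊆ T) (w : V) : inc S w ⊆ inc T w :=
  filter_subset_filter _ h

theorem inc_card_le (E : Finset (V × V)) (r : V → ℕ) (hr : ∀ e ∈ E, r e.1 < r e.2) (w : V)
    (N : Finset V) (hN : ∀ e ∈ E, (e.1 = w → e.2 ∈ N) ∧ (e.2 = w → e.1 ∈ N)) :
    (inc E w).card ≤ N.card := by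
  apply card_le_card_of_injOn (fun e : V × V => if e.1 = w then e.2 else e.1)
  · intro e he
    rw [Finset.mem_coe] at he ⊢
    unfold inc at he
    rw [mem_filter] at he
    by_cases h1 : e.1 = w
    · simp only [if_pos h1]
      exact (hN e he.1).1 h1
    · simp only [if_neg h1]
      exact (hN e he.1).2 (he.2.resolve_left h1)
  · intro e he f hf hef
    rw [Finset.mem_coe] at he hf
    unfold inc at he hf
    rw [mem_filter] at he hf
    have re := hr e he.1
    have rf := hr f hf.1
    by_cases h1 : e.1 = w
    · by_cases h2 : f.1 = w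
      · simp only [if_pos h1, if_pos h2] at hef
        exact Prod.ext (h1.trans h2.symm) hef
      · exfalso
        simp only [if_pos h1, if_neg h2] at hef
        have h3 := hf.2.resolve_left h2
        rw [h1, hef] at re
        rw [h3] at rf
        omega
    · have h3 := he.2.resolve_left h1
      by_cases h2 : f.1 = w
      · exfalso
        simp only [if_neg h1, if_pos h2] at hef
        rw [h3, hef] at re
        rw [h2] at rf
        omega
      · simp only [if_neg h1, if_neg h2] at hef
        have h4 := hf.2.resolve_left h2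
        exact Prod.ext hef (h3.trans h4.symm)

omit [DecidableEq V] in
theorem share_comm {e f : V × V} (h : Share e f) : Share f e := by
  rcases h with h | h | h | h
  · exact Or.inl h.symm
  · exact Or.inr (Or.inr (Or.inl h.symm))
  · exact Or.inr (Or.inl h.symm)
  · exact Or.inr (Or.inr (Or.inr h.symm))

/-- greedy extension of an edge colouring -/
theorem greedy (k : ℕ) (FB : V → Finset (Fin k)) (hFB : ∀ w, (FB w).card ≤ 2)
    (E0 : Finset (V × V)) (col : V × V → Fin k)
    (h1 : ∀ e ∈ E0, col e ∉ FB e.1 ∧ col e ∉ FB e.2)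
    (h2 : ∀ e ∈ E0, ∀ f ∈ E0, e ≠ f → Share e f → col e ≠ col f) (L : Finset (V × V))
    (h4 : ∀ e ∈ L, (inc (E0 ∪ L) e.1).card + (inc (E0 ∪ L) e.2).card + 4 < k) :
    ∃ col' : V × V → Fin k, (∀ e ∈ E0 ∪ L, col' e ∉ FB e.1 ∧ col' e ∉ FB e.2) ∧
      ∀ e ∈ E0 ∪ L, ∀ f ∈ E0 ∪ L, e ≠ f → Share e f → col' e ≠ col' f := by
  induction L using Finset.induction_on with
  | empty =>
    refine ⟨col, ?_, ?_⟩
    · rw [union_empty]; exact h1
    · rw [union_empty]; exact h2
  | insert e L heL ih =>
    have hsub : E0 ∪ L ⊆ E0 ∪ insert e L := union_subset_union_right (subset_insert e L)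
    obtain ⟨col', g1, g2⟩ := ih (by
      intro f hf
      have b1 := h4 f (mem_insert_of_mem hf)
      have b2 := card_le_card (inc_mono hsub f.1)
      have b3 := card_le_card (inc_mono hsub f.2)
      omega)
    by_cases heE : e ∈ E0 ∪ L
    · have heq : E0 ∪ insert e L = E0 ∪ L := by
        rw [union_insert, insert_eq_of_mem heE]
      rw [heq]
      exact ⟨col', g1, g2⟩
    · set used : Finset (Fin k) := ((inc (E0 ∪ L) e.1).image col' ∪ (inc (E0 ∪ L) e.2).image col') ∪
        (FB e.1 ∪ FB e.2) with hused
      have hcard : used.card < k := by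
        have b1 := h4 e (mem_insert_self e L)
        have b2 := card_le_card (inc_mono hsub e.1)
        have b3 := card_le_card (inc_mono hsub e.2)
        have c1 : ((inc (E0 ∪ L) e.1).image col').card ≤ (inc (E0 ∪ L) e.1).card := card_image_le
        have c2 : ((inc (E0 ∪ L) e.2).image col').card ≤ (inc (E0 ∪ L) e.2).card := card_image_le
        have c3 := card_union_le ((inc (E0 ∪ L) e.1).image col') ((inc (E0 ∪ L) e.2).image col')
        have c4 := card_union_le (FB e.1) (FB e.2)
        have c5 := card_union_le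
          ((inc (E0 ∪ L) e.1).image col' ∪ (inc (E0 ∪ L) e.2).image col') (FB e.1 ∪ FB e.2)
        have c6 := hFB e.1
        have c7 := hFB e.2
        rw [← hused] at c5
        omega
      obtain ⟨a, ha⟩ : ∃ a : Fin k, a ∉ used := by
        by_contra hcon
        push Not at hcon
        have h5 : used = univ := eq_univ_of_forall hcon
        rw [h5, card_univ, Fintype.card_fin] at hcard
        omega
      rw [hused, mem_union, mem_union, mem_union] at ha
      push Not at ha
      obtain ⟨⟨ha1, ha2⟩, ha3, ha4⟩ := ha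
      have hne : ∀ f ∈ E0 ∪ L, f ≠ e := by
        rintro f hf rfl
        exact heE hf
      have hup : ∀ f ∈ E0 ∪ L, Function.update col' e a f = col' f := fun f hf =>
        Function.update_of_ne (hne f hf) _ _
      have hshare : ∀ f ∈ E0 ∪ L, Share e f → a ≠ col' f := by
        intro f hf hs heq
        have : f ∈ inc (E0 ∪ L) e.1 ∨ f ∈ inc (E0 ∪ L) e.2 := by
          unfold inc
          rw [mem_filter, mem_filter]
          rcases hs with h | h | h | h
          · exact Or.inl ⟨hf, Or.inl h.symm⟩
          · exact Or.inl ⟨hf, Or.inr h.symm⟩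
          · exact Or.inr ⟨hf, Or.inl h.symm⟩
          · exact Or.inr ⟨hf, Or.inr h.symm⟩
        rcases this with h | h
        · exact ha1 (heq ▸ mem_image_of_mem col' h)
        · exact ha2 (heq ▸ mem_image_of_mem col' h)
      refine ⟨Function.update col' e a, ?_, ?_⟩
      · intro f hf
        rw [union_insert, mem_insert] at hf
        rcases hf with rfl | hf
        · rw [Function.update_self]
          exact ⟨ha3, ha4⟩
        · rw [hup f hf]
          exact g1 f hf
      · intro f hf f' hf' hff hs
        rw [union_insert, mem_insert] at hf hf'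
        rcases hf with rfl | hf
        · rcases hf' with rfl | hf'
          · exact absurd rfl hff
          · rw [Function.update_self, hup f' hf']
            exact hshare f' hf' hs
        · rcases hf' with rfl | hf'
          · rw [Function.update_self, hup f hf]
            exact (hshare f hf (share_comm hs)).symm
          · rw [hup f hf, hup f' hf']
            exact g2 f hf f' hf' hff hs

end aux

end FIN

open FIN in
/-- Block FIN. -/
theorem stmt_FIN (hCORE : Stmt_CORE.{u}) : Stmt_FIN.{u} := by
  classical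
  intro V _ G _ s k hdeg hk hks H hH c0 t0 h0
  obtain ⟨hM, hdist⟩ := hH
  set U : Finset V := H.verts.toFinset with hU
  have hUmem : ∀ v, v ∈ U ↔ v ∈ H.verts := by intro v; rw [hU, Set.mem_toFinset]
  -- adjacency facts
  have hF2 : ∀ u ∈ U, ∀ v ∈ U, G.Adj u v → H.Adj u v := by
    intro u hu v hv huv
    by_contra hn
    have h1 := hdist u ((hUmem u).1 hu) v ((hUmem v).1 hv) huv.ne hn
    have h3 : G.edist u v ≤ ((SimpleGraph.Walk.cons huv SimpleGraph.Walk.nil).length : ℕ∞) :=
      SimpleGraph.edist_le _
    simp only [SimpleGraph.Walk.length_cons, SimpleGraph.Walk.length_nil] at h3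
    have h4 := h1.trans h3
    norm_num at h4
  have hF3 : ∀ w, ∀ u ∈ U, ∀ v ∈ U, u ≠ v → G.Adj w u → G.Adj w v → H.Adj u v := by
    intro w u hu v hv huv h1 h2
    by_contra hn
    have h5 := hdist u ((hUmem u).1 hu) v ((hUmem v).1 hv) huv hn
    have h3 : G.edist u v ≤ ((SimpleGraph.Walk.cons h1.symm (SimpleGraph.Walk.cons h2
      SimpleGraph.Walk.nil)).length : ℕ∞) := SimpleGraph.edist_le _
    simp only [SimpleGraph.Walk.length_cons, SimpleGraph.Walk.length_nil] at h3
    have h4 := h5.trans h3
    norm_num at h4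
  have hF4 : ∀ u v v', H.Adj u v → H.Adj u v' → v = v' := by
    intro u v v' h1 h2
    exact (hM h1.fst_mem).unique h1 h2
  -- degrees
  have hnb : ∀ v, (univ.filter (fun w => G.Adj v w)).card = G.degree v := by
    intro v
    rw [← SimpleGraph.card_neighborFinset_eq_degree]
    congr 1
    ext w
    simp
  have hdegk : ∀ v, G.degree v + 1 ≤ k := by
    intro v
    have := G.degree_le_maxDegree v
    omega
  -- rank
  obtain ⟨r, -, hrinj, hrs⟩ := exists_rank
    (fun v w => G.Adj v w ∧ (k ≤ 32 * G.degree v ∨ k ≤ 32 * G.degree w)) s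
    (fun S hS => by
      obtain ⟨v, hv, h⟩ := hdeg S hS
      refine ⟨v, hv, le_trans (le_of_eq ?_) h⟩
      congr 1) _ (univ : Finset V) rfl
  have hrinj' : Function.Injective r := fun x y h => hrinj x (mem_univ x) y (mem_univ y) h
  set R : V → V → Prop := fun x y => G.Adj x y ∧ ¬ H.Adj x y with hR
  have hRsymm : ∀ x y, R x y → R y x := fun x y h => ⟨h.1.symm, fun h' => h.2 h'.symm⟩
  have hRirr : ∀ x, ¬ R x x := fun x h => G.loopless.irrefl x h.1
  set E1 : Finset (V × V) := univ.filter (fun e => R e.1 e.2 ∧ r e.1 < r e.2) with hE1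
  set E : Finset (V × V) := E1.filter
    (fun e => k ≤ 32 * G.degree e.1 ∨ k ≤ 32 * G.degree e.2) with hE
  set L : Finset (V × V) := E1.filter
    (fun e => ¬ (k ≤ 32 * G.degree e.1 ∨ k ≤ 32 * G.degree e.2)) with hL
  have hEL : E ∪ L = E1 := filter_union_filter_not_eq _ _
  have hE1mem : ∀ e, e ∈ E1 ↔ R e.1 e.2 ∧ r e.1 < r e.2 := by
    intro e; rw [hE1, mem_filter]; simp
  have hEE1 : E ⊆ E1 := filter_subset _ _
  set Fb0 : V → Finset (Fin k) := fun u =>
    insert (c0 u) ((univ.filter (fun v => H.Adj u v)).image (fun v => t0 s(u, v))) with hFb0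
  have hHcard : ∀ u, (univ.filter (fun v => H.Adj u v)).card ≤ 1 := by
    intro u
    rw [card_le_one]
    intro a ha b hb
    rw [mem_filter] at ha hb
    exact hF4 u a b ha.2 hb.2
  have hFb0card' : ∀ u, (Fb0 u).card ≤ (univ.filter (fun v => H.Adj u v)).card + 1 := by
    intro u
    refine (card_insert_le _ _).trans ?_
    have := card_image_le (s := univ.filter (fun v => H.Adj u v)) (f := fun v => t0 s(u, v))
    omega
  have hFb0card : ∀ u, (Fb0 u).card ≤ 2 := by
    intro u
    have h1 := hFb0card' u
    have h2 := hHcard u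
    omega
  have hsplit : ∀ u, (univ.filter (fun v => R u v)).card +
      (univ.filter (fun v => H.Adj u v)).card ≤ G.degree u := by
    intro u
    rw [← hnb u, ← card_union_of_disjoint]
    · apply card_le_card
      intro v hv
      rw [mem_union, mem_filter, mem_filter] at hv
      rw [mem_filter]
      refine ⟨mem_univ v, ?_⟩
      rcases hv with h | h
      · exact h.2.1
      · exact h.2.adj_sub
    · rw [Finset.disjoint_left]
      intro v hv hv'
      rw [mem_filter] at hv hv'
      exact hv.2.2 hv'.2
  have hincE1 : ∀ w, (inc E1 w).card ≤ (univ.filter (fun v => R w v)).card := by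
    intro w
    apply inc_card_le E1 r (fun e he => ((hE1mem e).1 he).2)
    intro e he
    have h1 := ((hE1mem e).1 he).1
    constructor
    · rintro rfl
      exact mem_filter.2 ⟨mem_univ _, h1⟩
    · rintro rfl
      exact mem_filter.2 ⟨mem_univ _, hRsymm _ _ h1⟩
  have hincE : ∀ w, (inc E w).card ≤ (univ.filter (fun v => R w v)).card := fun w =>
    (card_le_card (inc_mono hEE1 w)).trans (hincE1 w)
  have hincdeg : ∀ w, (inc E1 w).card ≤ G.degree w := by
    intro w
    have h1 := hincE1 w
    have h2 := hsplit w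
    omega
  have hbwd : ∀ x, (bwd E x).card ≤ s := by
    intro x
    refine le_trans ?_ (hrs x (mem_univ x))
    apply card_le_card_of_injOn (fun e : V × V => e.1)
    · intro e he
      rw [Finset.mem_coe] at he ⊢
      unfold bwd at he
      rw [mem_filter, hE, mem_filter, hE1mem] at he
      obtain ⟨⟨⟨h1, h2⟩, h3⟩, h4⟩ := he
      rw [mem_filter]
      rw [h4] at h1 h2 h3
      exact ⟨mem_univ _, ⟨h1.1.symm, h3.symm⟩, h2⟩
    · intro e he f hf hef
      rw [Finset.mem_coe] at he hf
      unfold bwd at he hf
      rw [mem_filter] at he hf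
      exact Prod.ext hef (he.2.trans hf.2.symm)
  have hearly : ∀ x, (univ.filter (fun w => R x w ∧ r w < r x)).card ≤ s + 1 + k / 32 := by
    intro x
    by_cases hx : k ≤ 32 * G.degree x
    · have h1 : univ.filter (fun w => R x w ∧ r w < r x) ⊆ univ.filter (fun w =>
          (G.Adj x w ∧ (k ≤ 32 * G.degree x ∨ k ≤ 32 * G.degree w)) ∧ r w < r x) := by
        intro w hw
        rw [mem_filter] at hw ⊢
        exact ⟨mem_univ _, ⟨hw.2.1.1, Or.inl hx⟩, hw.2.2⟩
      have h2 := (card_le_card h1).trans (hrs x (mem_univ x))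
      omega
    · have h1 : univ.filter (fun w => R x w ∧ r w < r x) ⊆ univ.filter (fun w => G.Adj x w) := by
        intro w hw
        rw [mem_filter] at hw ⊢
        exact ⟨mem_univ _, hw.2.1.1⟩
      have h2 := card_le_card h1
      rw [hnb x] at h2
      omega
  have hUR : ∀ x, (univ.filter (fun u => u ∈ U ∧ R x u)).card ≤ 2 := by
    intro x
    by_contra hcon
    push Not at hcon
    obtain ⟨a, ha, b, hb, c, hc, hab, hac, hbc⟩ := two_lt_card.1 hcon
    rw [mem_filter] at ha hb hc
    have h1 := hF3 x a ha.2.1 b hb.2.1 hab ha.2.2.1 hb.2.2.1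
    have h2 := hF3 x a ha.2.1 c hc.2.1 hac ha.2.2.1 hc.2.2.1
    exact hbc (hF4 a b c h1 h2)
  obtain ⟨c, col, hc1, hc2, hc3⟩ := hCORE V r R E (s + 1) k U Fb0 (by omega) hks hrinj' hRsymm hRirr
    (fun e he => ((hE1mem e).1 (hEE1 he)).2) (fun e he => ((hE1mem e).1 (hEE1 he)).1)
    (fun x => (hbwd x).trans (by omega)) (fun u _ => hFb0card u) hUR
    (fun u hu v hv h => h.2 (hF2 u hu v hv h.1)) hearly
    (fun w _ => by
      have h1 := hincE w
      have h2 := hsplit w
      have h3 := hdegk w
      omega)
    (fun u _ => by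
      have h1 := hincE u
      have h2 := hsplit u
      have h3 := hdegk u
      have h4 := hFb0card' u
      omega)
  have hFBcard : ∀ w, (FbOf U Fb0 c w).card ≤ 2 := by
    intro w
    unfold FbOf
    split_ifs
    · exact hFb0card w
    · rw [card_singleton]; omega
  obtain ⟨col', g1, g2⟩ := greedy k (FbOf U Fb0 c) hFBcard E col hc2 hc3 L (by
    intro e he
    rw [hEL]
    rw [hL, mem_filter] at he
    have h1 := hincdeg e.1
    have h2 := hincdeg e.2
    have h3 := he.2
    push Not at h3
    omega)
  rw [hEL] at g1 g2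
  -- the colouring
  set cc : V → Fin k := fun v => if v ∈ U then c0 v else c v with hcc
  set ord : Sym2 V → V × V := Sym2.lift ⟨fun a b => if r a < r b then (a, b) else (b, a), by
    intro a b
    beta_reduce
    rcases lt_trichotomy (r a) (r b) with h | h | h
    · rw [if_pos h, if_neg (by omega)]
    · have := hrinj' h
      subst this
      rfl
    · rw [if_neg (by omega), if_pos h]⟩ with hord
  have hord' : ∀ a b, ord s(a, b) = if r a < r b then (a, b) else (b, a) := fun a b => rfl
  set tt : Sym2 V → Fin k := fun e => if e ∈ H.edgeSet then t0 e else col' (ord e) with htt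
  have hordR : ∀ a b, R a b → ord s(a, b) ∈ E1 ∧
      ((ord s(a, b) = (a, b)) ∨ (ord s(a, b) = (b, a))) := by
    intro a b hab
    have hne : r a ≠ r b := fun h => hab.1.ne (hrinj' h)
    rw [hord']
    by_cases h : r a < r b
    · rw [if_pos h]
      exact ⟨(hE1mem _).2 ⟨hab, h⟩, Or.inl rfl⟩
    · rw [if_neg h]
      exact ⟨(hE1mem _).2 ⟨hRsymm _ _ hab, by simp only; omega⟩, Or.inr rfl⟩
  have hccFb : ∀ v, cc v ∈ FbOf U Fb0 c v := by
    intro v
    unfold FbOf
    simp only [hcc]
    split_ifs
    · simp only [hFb0]; exact mem_insert_self _ _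
    · exact mem_singleton_self _
  have httR : ∀ a b, G.Adj a b → ¬ H.Adj a b → tt s(a, b) = col' (ord s(a, b)) := by
    intro a b _ hn
    simp only [htt]
    rw [if_neg]
    rw [SimpleGraph.Subgraph.mem_edgeSet]
    exact hn
  have httH : ∀ a b, H.Adj a b → tt s(a, b) = t0 s(a, b) := by
    intro a b h
    simp only [htt]
    rw [if_pos]
    rw [SimpleGraph.Subgraph.mem_edgeSet]
    exact h
  have hcolFb : ∀ a b, R a b → col' (ord s(a, b)) ∉ FbOf U Fb0 c a := by
    intro a b hab
    obtain ⟨h1, h2⟩ := hordR a b hab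
    have h3 := g1 _ h1
    rcases h2 with h | h
    · rw [h] at h3 ⊢; exact h3.1
    · rw [h] at h3 ⊢; exact h3.2
  have hUadj : ∀ a b, H.Adj a b → a ∈ U := fun a b h => (hUmem a).2 h.fst_mem
  have htFb : ∀ a b, H.Adj a b → t0 s(a, b) ∈ FbOf U Fb0 c a := by
    intro a b h
    unfold FbOf
    rw [if_pos (hUadj a b h)]
    simp only [hFb0]
    apply mem_insert_of_mem
    exact mem_image_of_mem (fun v => t0 s(a, v)) (mem_filter.2 ⟨mem_univ b, h⟩)
  refine ⟨cc, tt, ⟨?_, ?_, ?_⟩, ?_, ?_⟩
  · -- vertices
    intro u v huv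
    by_cases hH' : H.Adj u v
    · have hu := hUadj u v hH'
      have hv := hUadj v u hH'.symm
      simp only [hcc]
      rw [if_pos hu, if_pos hv]
      exact h0.vertex u v (by simpa using hH')
    · have h1 := hc1 u v ⟨huv, hH'⟩
      intro heq
      have h2 := hccFb v
      rw [← heq] at h2
      exact Finset.disjoint_left.1 h1 (hccFb u) h2
  · -- edges
    intro u v w huv huw hvw
    by_cases h1 : H.Adj u v
    · by_cases h2 : H.Adj u w
      · exact absurd (hF4 u v w h1 h2) hvw
      · rw [httH u v h1, httR u w huw h2]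
        intro heq
        apply hcolFb u w ⟨huw, h2⟩
        rw [← heq]
        exact htFb u v h1
    · by_cases h2 : H.Adj u w
      · rw [httH u w h2, httR u v huv h1]
        intro heq
        apply hcolFb u v ⟨huv, h1⟩
        rw [heq]
        exact htFb u w h2
      · rw [httR u v huv h1, httR u w huw h2]
        obtain ⟨a1, a2⟩ := hordR u v ⟨huv, h1⟩
        obtain ⟨b1, b2⟩ := hordR u w ⟨huw, h2⟩
        have hu1 := huv.ne
        have hu2 := huw.ne
        apply g2 _ a1 _ b1
        · rcases a2 with h | h <;> rcases b2 with h' | h' <;> rw [h, h']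
          · intro h3; exact hvw (Prod.ext_iff.1 h3).2
          · intro h3; exact hu2 (Prod.ext_iff.1 h3).1
          · intro h3; exact hu1 (Prod.ext_iff.1 h3).1.symm
          · intro h3; exact hvw (Prod.ext_iff.1 h3).1
        · rcases a2 with h | h <;> rcases b2 with h' | h' <;> rw [h, h']
          · exact Or.inl rfl
          · exact Or.inr (Or.inl rfl)
          · exact Or.inr (Or.inr (Or.inl rfl))
          · exact Or.inr (Or.inr (Or.inr rfl))
  · -- incidences
    intro u v huv
    by_cases h1 : H.Adj u v
    · rw [httH u v h1]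
      simp only [hcc]
      rw [if_pos (hUadj u v h1)]
      exact h0.incidence u v (by simpa using h1)
    · rw [httR u v huv h1]
      intro heq
      apply hcolFb u v ⟨huv, h1⟩
      rw [heq]
      exact hccFb u
  · intro v hv
    simp only [hcc]
    rw [if_pos ((hUmem v).2 hv)]
  · intro e he
    simp only [htt]
    rw [if_pos he]

end MP_db9399_co.Lin
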