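import Mathlib
import Pool.Agent.Work.MP_db9399_lin.Interface
import Pool.Agent.Work.MP_db9399_co.Konig

/-! Block FIL: disjoint matchings covering prescribed sets and avoiding others. -/

set_option autoImplicit false

namespace MP_db9399_co.Lin

open Finset

universe u

namespace FIL

variable {V : Type u} [DecidableEq V]

/-- from a partial permutation of increasing arcs to a matching covering all tails -/
theorem thin (r : V → ℕ) : ∀ (n : ℕ) (M0 : Finset (V × V)), M0.card ≤ n →
    (∀ e ∈ M0, r e.1 < r e.2) → (∀ e ∈ M0, ∀ f ∈ M0, e.1 = f.1 → e = f) →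
    (∀ e ∈ M0, ∀ f ∈ M0, e.2 = f.2 → e = f) →
    ∃ M ⊆ M0, IsM M ∧ ∀ e ∈ M0, ∃ f ∈ M, f.1 = e.1 ∨ f.2 = e.1 := by
  intro n
  induction n with
  | zero =>
    intro M0 h0 _ _ _
    have : M0 = ∅ := card_eq_zero.1 (Nat.le_zero.1 h0)
    subst this
    exact ⟨∅, subset_rfl, by intro e he; simp at he, by intro e he; simp at he⟩
  | succ n ih =>
    intro M0 h0 hr h1 h2
    by_cases hne : M0.Nonempty
    · obtain ⟨e, he, hmin⟩ := M0.exists_min_image (fun e => r e.1) hne
      set M1 := M0.filter (fun f => f ≠ e ∧ f.1 ≠ e.2) with hM1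
      have hlt : M1.card < M0.card := by
        apply card_lt_card
        rw [Finset.ssubset_iff_of_subset (filter_subset _ _)]
        exact ⟨e, he, by simp [hM1]⟩
      obtain ⟨M, hM, hMm, hMc⟩ := ih M1 (by omega)
        (fun f hf => hr f (mem_filter.1 hf).1)
        (fun f hf g hg => h1 f (mem_filter.1 hf).1 g (mem_filter.1 hg).1)
        (fun f hf g hg => h2 f (mem_filter.1 hf).1 g (mem_filter.1 hg).1)
      have key : ∀ f ∈ M, ¬ Share e f ∧ ¬ Share f e := by
        intro f hf
        obtain ⟨hf0, hfe, hf2⟩ := mem_filter.1 (hM hf)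
        have a1 : e.1 ≠ f.1 := fun h => hfe (h1 e he f hf0 h).symm
        have a2 : e.1 ≠ f.2 := by
          intro h
          have b1 := hr f hf0
          have b2 := hmin f hf0
          rw [← h] at b1
          omega
        have a3 : e.2 ≠ f.1 := fun h => hf2 h.symm
        have a4 : e.2 ≠ f.2 := fun h => hfe (h2 e he f hf0 h).symm
        constructor
        · rintro (h | h | h | h)
          · exact a1 h
          · exact a2 h
          · exact a3 h
          · exact a4 h
        · rintro (h | h | h | h)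
          · exact a1 h.symm
          · exact a3 h.symm
          · exact a2 h.symm
          · exact a4 h.symm
      refine ⟨insert e M, ?_, ?_, ?_⟩
      · intro f hf
        rw [mem_insert] at hf
        rcases hf with rfl | hf
        · exact he
        · exact (mem_filter.1 (hM hf)).1
      · intro f hf g hg hs
        rw [mem_insert] at hf hg
        rcases hf with rfl | hf
        · rcases hg with rfl | hg
          · rfl
          · exact absurd hs (key g hg).1
        · rcases hg with rfl | hg
          · exact absurd hs (key f hf).2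
          · exact hMm f hf g hg hs
      · intro f hf
        by_cases hfe : f = e
        · exact ⟨e, mem_insert_self _ _, Or.inl (by rw [hfe])⟩
        · by_cases hf2 : f.1 = e.2
          · exact ⟨e, mem_insert_self _ _, Or.inr hf2.symm⟩
          · obtain ⟨g, hg, hg'⟩ := hMc f (mem_filter.2 ⟨hf, hfe, hf2⟩)
            exact ⟨g, mem_insert_of_mem hg, hg'⟩
    · rw [not_nonempty_iff_eq_empty] at hne
      subst hne
      exact ⟨∅, subset_rfl, by intro e he; simp at he, by intro e he; simp at he⟩

/-- one demand -/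
theorem one (r : V → ℕ) (E0 : Finset (V × V)) (s : ℕ) (hs : 1 ≤ s)
    (hr : ∀ e ∈ E0, r e.1 < r e.2) (hb : ∀ x, (bwd E0 x).card ≤ s) (A Z : Finset V)
    (hAZ : Disjoint A Z)
    (hA : ∀ w ∈ A, s ≤ ((fwd E0 w).filter (fun e => e.2 ∉ Z)).card) :
    ∃ M ⊆ E0, IsM M ∧ (∀ w ∈ A, ∃ e ∈ M, e.1 = w ∨ e.2 = w) ∧
      ∀ e ∈ M, e.1 ∉ Z ∧ e.2 ∉ Z := by
  set S := E0.filter (fun e => e.1 ∈ A ∧ e.2 ∉ Z) with hS
  obtain ⟨M0, hM0, hinj1, hinj2, hcov⟩ := hall_side (Prod.fst : V × V → V) (Prod.snd : V × V → V)
    (s - 1) S (by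
      intro v
      have h1 : S.filter (fun e => e.2 = v) ⊆ bwd E0 v := by
        intro e he
        rw [mem_filter] at he
        unfold bwd
        rw [mem_filter]
        exact ⟨(mem_filter.1 he.1).1, he.2⟩
      have h2 := (card_le_card h1).trans (hb v)
      omega)
  obtain ⟨M, hM, hMm, hMc⟩ := thin r M0.card M0 le_rfl
    (fun e he => hr e (mem_filter.1 (hM0 he)).1) hinj1 hinj2
  refine ⟨M, fun e he => (mem_filter.1 (hM0 (hM he))).1, hMm, ?_, ?_⟩
  · intro w hw
    have h1 : s - 1 + 1 ≤ (S.filter (fun e => e.1 = w)).card := by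
      have h2 : (fwd E0 w).filter (fun e => e.2 ∉ Z) ⊆ S.filter (fun e => e.1 = w) := by
        intro e he
        unfold fwd at he
        rw [mem_filter, mem_filter] at he
        rw [mem_filter, hS, mem_filter]
        refine ⟨⟨he.1.1, ?_, he.2⟩, he.1.2⟩
        rw [he.1.2]
        exact hw
      have h3 := (hA w hw).trans (card_le_card h2)
      omega
    obtain ⟨e, he, hew⟩ := hcov w h1
    obtain ⟨f, hf, hfe⟩ := hMc e he
    rw [hew] at hfe
    exact ⟨f, hf, hfe⟩
  · intro e he
    have h1 := (mem_filter.1 (hM0 (hM he))).2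
    exact ⟨Finset.disjoint_left.1 hAZ h1.1, h1.2⟩

end FIL

open FIL in
/-- Block FIL. -/
theorem stmt_FIL : Stmt_FIL.{u} := by
  intro V _ _ r E s hs hr hb ι _ _ A Z Ea hEa hAZ hA
  have main : ∀ I : Finset ι, ∃ M : ι → Finset (V × V), (∀ τ ∈ I, M τ ⊆ Ea τ) ∧
      (∀ τ ∈ I, IsM (M τ)) ∧ (∀ τ ∈ I, ∀ τ' ∈ I, τ ≠ τ' → Disjoint (M τ) (M τ')) ∧
      (∀ τ ∈ I, ∀ w ∈ A τ, ∃ e ∈ M τ, e.1 = w ∨ e.2 = w) ∧
      (∀ τ ∈ I, ∀ e ∈ M τ, e.1 ∉ Z τ ∧ e.2 ∉ Z τ) := by
    intro I
    induction I using Finset.induction_on with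
    | empty =>
      refine ⟨fun _ => ∅, ?_, ?_, ?_, ?_, ?_⟩ <;> intro τ hτ <;> simp at hτ
    | insert τ0 I hτ0 ih =>
      obtain ⟨M, h1, h2, h3, h4, h5⟩ := ih
      set E0 := Ea τ0 \ I.biUnion M with hE0
      have hE0E : E0 ⊆ E := sdiff_subset.trans (hEa τ0)
      obtain ⟨M0, hM0, m1, m2, m3⟩ := one r E0 s hs (fun e he => hr e (hE0E he))
        (fun x => (card_le_card (filter_subset_filter _ hE0E)).trans (hb x)) (A τ0) (Z τ0)
        (hAZ τ0) (by
          intro w hw
          have b1 := hA τ0 w hw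
          have b2 : (fwd (Ea τ0) w).filter (fun e => e.2 ∉ Z τ0) ⊆
              (fwd E0 w).filter (fun e => e.2 ∉ Z τ0) ∪
                I.biUnion (fun τ => (M τ).filter (fun e => e.1 = w)) := by
            intro e he
            unfold fwd at he ⊢
            rw [mem_filter, mem_filter] at he
            rw [mem_union, mem_filter, mem_filter, mem_biUnion, hE0, Finset.mem_sdiff, mem_biUnion]
            by_cases hex : ∃ τ ∈ I, e ∈ M τ
            · obtain ⟨τ, hτ, heτ⟩ := hex
              exact Or.inr ⟨τ, hτ, mem_filter.2 ⟨heτ, he.1.2⟩⟩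
            · exact Or.inl ⟨⟨⟨he.1.1, hex⟩, he.1.2⟩, he.2⟩
          have b3 : (I.biUnion (fun τ => (M τ).filter (fun e => e.1 = w))).card ≤ I.card := by
            refine card_biUnion_le.trans ?_
            calc ∑ τ ∈ I, ((M τ).filter (fun e => e.1 = w)).card ≤ ∑ τ ∈ I, 1 := by
                  refine sum_le_sum fun τ hτ => ?_
                  rw [card_le_one]
                  intro e he f hf
                  rw [mem_filter] at he hf
                  exact h2 τ hτ e he.1 f hf.1 (Or.inl (he.2.trans hf.2.symm))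
              _ = I.card := by simp
          have b4 := (card_le_card b2).trans (card_union_le _ _)
          have b5 : I.card ≤ Fintype.card ι := card_le_univ _
          omega)
      have hdisj : ∀ τ ∈ I, Disjoint M0 (M τ) := by
        intro τ hτ
        rw [Finset.disjoint_left]
        intro e he he'
        have := hM0 he
        rw [hE0, Finset.mem_sdiff, mem_biUnion] at this
        exact this.2 ⟨τ, hτ, he'⟩
      have hup : ∀ τ ∈ I, Function.update M τ0 M0 τ = M τ := by
        intro τ hτ
        rw [Function.update_of_ne]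
        rintro rfl
        exact hτ0 hτ
      have hup0 : Function.update M τ0 M0 τ0 = M0 := Function.update_self _ _ _
      refine ⟨Function.update M τ0 M0, ?_, ?_, ?_, ?_, ?_⟩
      · intro τ hτ
        rw [mem_insert] at hτ
        rcases hτ with rfl | hτ
        · rw [hup0]; exact hM0.trans sdiff_subset
        · rw [hup τ hτ]; exact h1 τ hτ
      · intro τ hτ
        rw [mem_insert] at hτ
        rcases hτ with rfl | hτ
        · rw [hup0]; exact m1
        · rw [hup τ hτ]; exact h2 τ hτ
      · intro τ hτ τ' hτ' hne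
        rw [mem_insert] at hτ hτ'
        rcases hτ with rfl | hτ
        · rcases hτ' with rfl | hτ'
          · exact absurd rfl hne
          · rw [hup0, hup τ' hτ']; exact hdisj τ' hτ'
        · rcases hτ' with rfl | hτ'
          · rw [hup0, hup τ hτ]; exact (hdisj τ hτ).symm
          · rw [hup τ hτ, hup τ' hτ']; exact h3 τ hτ τ' hτ' hne
      · intro τ hτ
        rw [mem_insert] at hτ
        rcases hτ with rfl | hτ
        · rw [hup0]; exact m2
        · rw [hup τ hτ]; exact h4 τ hτ
      · intro τ hτ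
        rw [mem_insert] at hτ
        rcases hτ with rfl | hτ
        · rw [hup0]; exact m3
        · rw [hup τ hτ]; exact h5 τ hτ
  obtain ⟨M, h1, h2, h3, h4, h5⟩ := main univ
  exact ⟨M, fun τ => h1 τ (mem_univ τ), fun τ => h2 τ (mem_univ τ),
    fun τ τ' => h3 τ (mem_univ τ) τ' (mem_univ τ'), fun τ => h4 τ (mem_univ τ),
    fun τ => h5 τ (mem_univ τ)⟩

end MP_db9399_co.Lin
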